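import Mathlib
import Pool.Agent.Lib.MP_40e9ab_lc.Small

/-!
MP_40e9ab_lc: for every closed interval `[a,b]`, `a < b`, and every family `F` of at most continuum
many subsets of `[a,b]` there is an admissible sigma-algebra on `[a,b]` that contains `F` and is not
the power set of `[a,b]`.

Proof: well-order `[a,b]` in type continuum, let `I` be the sigma-ideal of all sets carrying a
regressive function with countable fibres, and take the sets that are modulo `I` in the
sigma-algebra generated by `F` and the intervals.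
-/

set_option autoImplicit false

open Cardinal

namespace Pool.Agent.Results.MP_40e9ab_lc.ManySets

/-- `N` is a sigma-algebra on `I`: a family of subsets of `I` closed under complement relative to
`I` and under countable unions (the empty union included). -/
structure IsSigmaAlgebraOn (I : Set ℝ) (N : Set (Set ℝ)) : Prop where
  sub : ∀ A ∈ N, A ⊆ I
  compl : ∀ A ∈ N, I \ A ∈ N
  union : ∀ C : Set (Set ℝ), C.Countable → C ⊆ N → ⋃₀ C ∈ N

/-- `P` is a partition of `I`: pairwise disjoint nonempty sets whose union is `I`. -/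
structure IsPartitionOf (I : Set ℝ) (P : Set (Set ℝ)) : Prop where
  nonempty : ∀ p ∈ P, p.Nonempty
  disjoint : ∀ p ∈ P, ∀ q ∈ P, p ≠ q → p ∩ q = ∅
  union : ⋃₀ P = I

/-- `S` is a selector for `P`: a subset of `I` that meets every part in exactly one point. -/
structure IsSelector (I : Set ℝ) (P : Set (Set ℝ)) (S : Set ℝ) : Prop where
  sub : S ⊆ I
  one : ∀ p ∈ P, ∃ x, S ∩ p = {x}

/-- Admissible families of subsets of `I`. -/
structure Admissible (I : Set ℝ) (N : Set (Set ℝ)) : Prop where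
  intervals : ∀ J : Set ℝ, J ⊆ I → J.OrdConnected → J ∈ N
  sigma : IsSigmaAlgebraOn I N
  selectors : ∀ P : Set (Set ℝ), IsPartitionOf I P → (∀ p ∈ P, ∃ x ∈ p, ∃ y ∈ p, x ≠ y) →
    ∃ S ∈ N, IsSelector I P S

open Pool.Agent.Lib.MP_40e9ab_lc

theorem IsSigmaAlgebraOn.union2 {I : Set ℝ} {N : Set (Set ℝ)} (h : IsSigmaAlgebraOn I N)
    {A B : Set ℝ} (hA : A ∈ N) (hB : B ∈ N) : A ∪ B ∈ N := by
  have h1 := h.union {A, B} (by simp) (by
    rintro C (rfl | rfl)
    · exact hA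
    · exact hB)
  rwa [Set.sUnion_pair] at h1

theorem IsSigmaAlgebraOn.diff2 {I : Set ℝ} {N : Set (Set ℝ)} (h : IsSigmaAlgebraOn I N)
    {A B : Set ℝ} (hA : A ∈ N) (hB : B ∈ N) : A \ B ∈ N := by
  have h1 := h.compl _ (h.union2 (h.compl A hA) hB)
  have h2 : I \ ((I \ A) ∪ B) = A \ B := by
    ext x
    have h3 : x ∈ A → x ∈ I := fun h4 => h.sub A hA h4
    simp only [Set.mem_sdiff, Set.mem_union]
    tauto
  rwa [h2] at h1

theorem IsSigmaAlgebraOn.symmDiff2 {I : Set ℝ} {N : Set (Set ℝ)} (h : IsSigmaAlgebraOn I N)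
    {A B : Set ℝ} (hA : A ∈ N) (hB : B ∈ N) : symmDiff A B ∈ N :=
  h.union2 (h.diff2 hA hB) (h.diff2 hB hA)

/-- A sigma-algebra on `I` that omits one subset of `I` omits `2 ^ #I` of them. -/
theorem card_omitted {I : Set ℝ} {N : Set (Set ℝ)} (h : IsSigmaAlgebraOn I N) (hI : #I = 𝔠)
    {A : Set ℝ} (hA : A ⊆ I) (hAN : A ∉ N) : #{B : Set ℝ | B ⊆ I ∧ B ∉ N} = 2 ^ 𝔠 := by
  have hP : #(Set.powerset I) = 2 ^ 𝔠 := by rw [Cardinal.mk_powerset, hI]
  have hinf : ℵ₀ ≤ (2 ^ 𝔠 : Cardinal.{0}) := aleph0_le_continuum.trans (Cardinal.cantor _).le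
  apply le_antisymm
  · rw [← hP]
    exact mk_le_mk_of_subset fun B hB => hB.1
  · have h1 : #N ≤ #{B : Set ℝ | B ⊆ I ∧ B ∉ N} := by
      refine Cardinal.mk_le_of_injective (f := fun B : N => ⟨symmDiff A B.1, ?_, ?_⟩) ?_
      · intro x hx
        rw [Set.mem_symmDiff] at hx
        rcases hx with h1 | h1
        · exact hA h1.1
        · exact h.sub _ B.2 h1.1
      · intro h1
        apply hAN
        have h2 := h.symmDiff2 h1 B.2
        rwa [symmDiff_symmDiff_cancel_right] at h2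
      · intro B C hBC
        have h1 := congrArg Subtype.val hBC
        exact Subtype.ext (symmDiff_right_injective A h1)
    have h2 : #(Set.powerset I) ≤ #N + #{B : Set ℝ | B ⊆ I ∧ B ∉ N} := by
      refine le_trans (mk_le_mk_of_subset ?_) (mk_union_le _ _)
      intro B hB
      by_cases hBN : B ∈ N
      · exact Or.inl hBN
      · exact Or.inr ⟨hB, hBN⟩
    rw [hP] at h2
    have h3 := h2.trans (add_le_add_left h1 _)
    by_cases h4 : ℵ₀ ≤ #{B : Set ℝ | B ⊆ I ∧ B ∉ N}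
    · rwa [Cardinal.add_eq_self h4] at h3
    · exfalso
      have h5 := lt_of_not_ge h4
      exact absurd (hinf.trans h3) (not_le.2 (Cardinal.add_lt_aleph0 h5 h5))

/-- For all `a < b` and every family `F` of at most continuum many subsets of `[a,b]` there is an
admissible family `N` of subsets of `[a,b]` which contains `F`, in which every partition of `[a,b]`
into parts with at least two elements has a selector all of whose subsets belong to `N`, and which
omits `2 ^ 𝔠` subsets of `[a,b]`. -/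
theorem result (a b : ℝ) (hab : a < b) (F : Set (Set ℝ)) (hF : ∀ A ∈ F, A ⊆ Set.Icc a b)
    (hFc : #F ≤ 𝔠) :
    ∃ N : Set (Set ℝ), Admissible (Set.Icc a b) N ∧ F ⊆ N ∧
      (∀ P : Set (Set ℝ), IsPartitionOf (Set.Icc a b) P → (∀ p ∈ P, ∃ x ∈ p, ∃ y ∈ p, x ≠ y) →
        ∃ S ∈ N, IsSelector (Set.Icc a b) P S ∧ ∀ T ⊆ S, T ∈ N) ∧
      #{A : Set ℝ | A ⊆ Set.Icc a b ∧ A ∉ N} = 2 ^ 𝔠 := by
  classical
  have hI : #(Set.Icc a b) = 𝔠 := mk_Icc_real hab
  let X : Type := (𝔠 : Cardinal.{0}).ord.ToType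
  have hX : #X = 𝔠 := by simp [X]
  obtain ⟨E⟩ : Nonempty (X ≃ Set.Icc a b) := Cardinal.eq.1 (hX.trans hI.symm)
  let hat : Set ℝ → Set X := fun A => {x | (E x : ℝ) ∈ A}
  let I : Set X → Prop := fun A => Small ℵ₀ A
  have Imono : ∀ {A B : Set X}, A ⊆ B → I B → I A := fun h hB => Small.mono h hB
  have Iempty : I ∅ := ⟨id, by simp, by simp⟩
  have IiUnion : ∀ A : ℕ → Set X, (∀ n, I (A n)) → I (⋃ n, A n) := by
    intro A h
    exact Small.iUnion le_rfl (by simp) A h
  -- the base sigma-algebra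
  have hmJ : ∀ J : Set ℝ, J.OrdConnected → MeasurableSet J := fun J hJ => hJ.measurableSet
  obtain ⟨G, hG, hgen⟩ :=
    (inferInstance : MeasurableSpace.CountablyGenerated ℝ).isCountablyGenerated
  rw [hgen] at hmJ
  let m : MeasurableSpace ℝ := MeasurableSpace.generateFrom (F ∪ G)
  have hm0 : ∀ J : Set ℝ, J.OrdConnected → @MeasurableSet ℝ m J := by
    intro J hJ
    exact MeasurableSpace.generateFrom_mono Set.subset_union_right J (hmJ J hJ)
  have hmF : ∀ A ∈ F, @MeasurableSet ℝ m A := fun A hA =>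
    MeasurableSpace.measurableSet_generateFrom (Or.inl hA)
  have hmc : #{B : Set ℝ | @MeasurableSet ℝ m B} ≤ 𝔠 := by
    refine MeasurableSpace.cardinal_measurableSet_le_continuum ?_
    refine (mk_union_le _ _).trans ?_
    refine (add_le_add hFc ((Cardinal.le_aleph0_iff_set_countable.2 hG).trans
      aleph0_le_continuum)).trans ?_
    simp
  let N : Set (Set ℝ) := {A | A ⊆ Set.Icc a b ∧
    ∃ B : Set ℝ, @MeasurableSet ℝ m B ∧ I (symmDiff (hat A) (hat B))}
  have hsel : ∀ P : Set (Set ℝ), IsPartitionOf (Set.Icc a b) P →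
      (∀ p ∈ P, ∃ x ∈ p, ∃ y ∈ p, x ≠ y) →
      ∃ S ∈ N, IsSelector (Set.Icc a b) P S ∧ ∀ T ⊆ S, T ∈ N := by
    intro P hPI hP
    have hcov := hPI.union
    -- choose two comparable points in each part
    have h2 : ∀ p ∈ P, ∃ u v : X, v < u ∧ (E u : ℝ) ∈ p ∧ (E v : ℝ) ∈ p := by
      intro p hp
      obtain ⟨x, hx, y, hy, hxy⟩ := hP p hp
      have hsub : p ⊆ Set.Icc a b := by
        rw [← hcov]; exact Set.subset_sUnion_of_mem hp
      have ex : (E (E.symm ⟨x, hsub hx⟩) : ℝ) = x := by simp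
      have ey : (E (E.symm ⟨y, hsub hy⟩) : ℝ) = y := by simp
      have hne : E.symm ⟨x, hsub hx⟩ ≠ E.symm ⟨y, hsub hy⟩ := by
        intro h
        apply hxy
        rw [← ex, ← ey, h]
      rcases lt_or_gt_of_ne hne with h | h
      · exact ⟨_, _, h, by rw [ey]; exact hy, by rw [ex]; exact hx⟩
      · exact ⟨_, _, h, by rw [ex]; exact hx, by rw [ey]; exact hy⟩
    have huniq : ∀ p ∈ P, ∀ q ∈ P, ∀ x, x ∈ p → x ∈ q → p = q := by
      intro p hp q hq x hxp hxq
      by_contra hne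
      have h3 : x ∈ p ∩ q := ⟨hxp, hxq⟩
      rw [hPI.disjoint p hp q hq hne] at h3
      exact h3
    have hne : Nonempty X := ⟨E.symm ⟨a, by simp [hab.le]⟩⟩
    choose! u v huv hu hv using h2
    have hpart : ∀ x : X, ∃ p ∈ P, (E x : ℝ) ∈ p := by
      intro x
      have : (E x : ℝ) ∈ ⋃₀ P := by rw [hcov]; exact (E x).2
      exact this
    choose part hpart1 hpart2 using hpart
    have hpu : ∀ p ∈ P, part (u p) = p := fun p hp =>
      huniq _ (hpart1 _) _ hp _ (hpart2 _) (hu p hp)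
    have hpv : ∀ p ∈ P, part (v p) = p := fun p hp =>
      huniq _ (hpart1 _) _ hp _ (hpart2 _) (hv p hp)
    have hall : ∀ T ⊆ (fun p => (E (u p) : ℝ)) '' P, T ∈ N := by
      intro T hT
      refine ⟨?_, ∅, @MeasurableSet.empty ℝ m, ?_⟩
      · intro t ht
        obtain ⟨p, hp, rfl⟩ := hT ht
        exact (E (u p)).2
      · have hmem : ∀ x, x ∈ symmDiff (hat T) (hat ∅) → ∃ p ∈ P, x = u p := by
          intro x hx
          rw [Set.mem_symmDiff] at hx
          rcases hx with ⟨h1, -⟩ | ⟨h1, -⟩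
          · obtain ⟨p, hp, h⟩ : ∃ p, p ∈ P ∧ (E (u p) : ℝ) = (E x : ℝ) := hT h1
            exact ⟨p, hp, (E.injective (Subtype.ext h)).symm⟩
          · exact absurd (show (E x : ℝ) ∈ (∅ : Set ℝ) from h1) (by simp)
        refine ⟨fun x => v (part x), ?_, ?_⟩
        · intro x hx
          obtain ⟨p, hp, rfl⟩ := hmem x hx
          show v (part (u p)) < u p
          rw [hpu p hp]
          exact huv p hp
        · intro y
          rw [Cardinal.mk_le_aleph0_iff, Set.countable_coe_iff]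
          apply Set.Subsingleton.countable
          rintro x ⟨hx, hxy⟩ x' ⟨hx', hxy'⟩
          obtain ⟨p, hp, rfl⟩ := hmem x hx
          obtain ⟨q, hq, rfl⟩ := hmem x' hx'
          simp only [hpu p hp, hpu q hq] at hxy hxy'
          have : part (v p) = part (v q) := by rw [hxy, hxy']
          rw [hpv p hp, hpv q hq] at this
          rw [this]
    refine ⟨(fun p => (E (u p) : ℝ)) '' P, hall _ subset_rfl, ⟨?_, ?_⟩, hall⟩
    · rintro _ ⟨p, hp, rfl⟩
      exact (E (u p)).2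
    · intro p hp
      refine ⟨E (u p), ?_⟩
      ext y
      constructor
      · rintro ⟨⟨q, hq, rfl⟩, hyp⟩
        have : q = p := huniq q hq p hp _ (hu q hq) hyp
        rw [this]
        rfl
      · intro hy
        rw [Set.mem_singleton_iff.1 hy]
        exact ⟨⟨p, hp, rfl⟩, hu p hp⟩
  have hsigma : IsSigmaAlgebraOn (Set.Icc a b) N := by
    refine ⟨fun A hA => hA.1, ?_, ?_⟩
    · rintro A ⟨hA, B, hB, hI⟩
      refine ⟨Set.sdiff_subset, Bᶜ, @MeasurableSet.compl ℝ B m hB, ?_⟩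
      refine Imono ?_ hI
      intro x hx
      have h1 : (E x : ℝ) ∈ Set.Icc a b := (E x).2
      rw [Set.mem_symmDiff] at hx ⊢
      have e1 : x ∈ hat (Set.Icc a b \ A) ↔ x ∉ hat A := by
        show (E x : ℝ) ∈ Set.Icc a b \ A ↔ ¬ ((E x : ℝ) ∈ A)
        constructor
        · intro h; exact h.2
        · intro h; exact ⟨h1, h⟩
      have e2 : x ∈ hat Bᶜ ↔ x ∉ hat B := Iff.rfl
      rw [e1, e2] at hx
      tauto
    · intro C hC hCN
      have hemp : (∅ : Set ℝ) ∈ N := by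
        refine ⟨Set.empty_subset _, ∅, @MeasurableSet.empty ℝ m, ?_⟩
        rw [symmDiff_self]
        exact Iempty
      rcases C.eq_empty_or_nonempty with rfl | hne
      · rw [Set.sUnion_empty]; exact hemp
      obtain ⟨f, rfl⟩ := hC.exists_eq_range hne
      have hf : ∀ n, f n ∈ N := fun n => hCN ⟨n, rfl⟩
      rw [Set.sUnion_range]
      refine ⟨Set.iUnion_subset fun n => (hf n).1, ?_⟩
      choose hf1 B hB hI using hf
      refine ⟨⋃ n, B n, @MeasurableSet.iUnion ℝ ℕ m _ B hB, ?_⟩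
      refine Imono ?_ (IiUnion _ hI)
      intro x hx
      rw [Set.mem_symmDiff] at hx
      rw [Set.mem_iUnion]
      rcases hx with ⟨h1, h2⟩ | ⟨h1, h2⟩
      · obtain ⟨n, hn⟩ := Set.mem_iUnion.1 (show (E x : ℝ) ∈ ⋃ n, f n from h1)
        refine ⟨n, ?_⟩
        rw [Set.mem_symmDiff]
        exact Or.inl ⟨hn, fun h => h2 (Set.mem_iUnion.2 ⟨n, h⟩)⟩
      · obtain ⟨n, hn⟩ := Set.mem_iUnion.1 (show (E x : ℝ) ∈ ⋃ n, B n from h1)
        refine ⟨n, ?_⟩
        rw [Set.mem_symmDiff]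
        exact Or.inr ⟨hn, fun h => h2 (Set.mem_iUnion.2 ⟨n, h⟩)⟩
  -- a set outside `N`
  have hout : ∃ A : Set ℝ, A ⊆ Set.Icc a b ∧ A ∉ N := by
    have hX1 : ℵ₀ < #X := by rw [hX]; exact aleph0_lt_continuum
    obtain ⟨H, T, hH, hT1, hT2⟩ := exists_disjoint_positive (X := X) hX1 (by
      intro μ _ hμ
      exact mk_rk_lt_le 𝔠 μ (by rwa [hX] at hμ))
    have hmeas : #{B : Set ℝ | @MeasurableSet ℝ m B} ≤ #H := by
      refine le_trans ?_ hH
      rw [hX]
      exact hmc
    obtain ⟨g⟩ := hmeas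
    refine ⟨{r | ∃ h : r ∈ Set.Icc a b, ∃ B : {B : Set ℝ | @MeasurableSet ℝ m B},
      E.symm ⟨r, h⟩ ∈ T (g B) ∧ r ∉ (B : Set ℝ)}, fun r hr => hr.choose, ?_⟩
    rintro ⟨-, B, hB, hI⟩
    let B' : {B : Set ℝ | @MeasurableSet ℝ m B} := ⟨B, hB⟩
    refine hT2 (g B') (g B').2 (Imono ?_ hI)
    intro x hx
    rw [Set.mem_symmDiff]
    by_cases hxB : (E x : ℝ) ∈ B
    · refine Or.inr ⟨hxB, ?_⟩
      rintro ⟨h1, B'', h2, h3⟩
      have h4 : E.symm ⟨(E x : ℝ), h1⟩ = x := by simp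
      rw [h4] at h2
      have h5 : g B'' = g B' := Subtype.ext (hT1 _ (g B'').2 _ (g B').2 x h2 hx)
      have h6 : B'' = B' := g.injective h5
      rw [h6] at h3
      exact h3 hxB
    · refine Or.inl ⟨⟨(E x).2, B', ?_, hxB⟩, hxB⟩
      have h4 : E.symm ⟨(E x : ℝ), (E x).2⟩ = x := by simp
      rw [h4]
      exact hx
  refine ⟨N, ⟨?_, hsigma, ?_⟩, ?_, hsel, ?_⟩
  · intro J hJI hJ
    refine ⟨hJI, J, hm0 J hJ, ?_⟩
    rw [symmDiff_self]
    exact Iempty
  · intro P h1 h2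
    obtain ⟨S, h3, h4, -⟩ := hsel P h1 h2
    exact ⟨S, h3, h4⟩
  · intro A hA
    refine ⟨hF A hA, A, hmF A hA, ?_⟩
    rw [symmDiff_self]
    exact Iempty
  · obtain ⟨A, hA, hAN⟩ := hout
    exact card_omitted hsigma hI hA hAN

end Pool.Agent.Results.MP_40e9ab_lc.ManySets
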